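import Mathlib
import Pool.Agent.U309.ZF.Stm

/-!
# Project ZF, package AV (helper402): `a_v = a_p` at the primes of degree one
-/

set_option autoImplicit false

open NumberField IsDedekindDomain

namespace Pool.Agent.U402.ZF.AV

/-- the affine points modulo `p` -/
theorem card_zmod (a b : ℤ) (p : ℕ) [NeZero p] :
    Nat.card {P : ZMod p × ZMod p // P.2 ^ 2 = P.1 ^ 3 + (a : ZMod p) * P.1 + (b : ZMod p)} =
    ((Finset.range p ×ˢ Finset.range p).filter
    (fun xy : ℕ × ℕ => (p : ℤ) ∣ (xy.2 : ℤ) ^ 2 - ((xy.1 : ℤ) ^ 3 + a * (xy.1 : ℤ) + b))).card := by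
  classical
  have key : ∀ x y : ℕ, ((p : ℤ) ∣ (y : ℤ) ^ 2 - ((x : ℤ) ^ 3 + a * (x : ℤ) + b)) ↔
      ((y : ZMod p)) ^ 2 = (x : ZMod p) ^ 3 + (a : ZMod p) * (x : ZMod p) + (b : ZMod p) := by
    intro x y
    rw [← ZMod.intCast_zmod_eq_zero_iff_dvd _ p]
    push_cast
    rw [sub_eq_zero]
  rw [Nat.card_eq_fintype_card, Fintype.card_subtype]
  refine Finset.card_nbij' (fun P => (P.1.val, P.2.val)) (fun xy => ((xy.1 : ZMod p), (xy.2 : ZMod p))) ?_ ?_ ?_ ?_
  · rintro ⟨x, y⟩ h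
    have h' : y ^ 2 = x ^ 3 + (a : ZMod p) * x + (b : ZMod p) := by simpa using h
    have h2 := (key x.val y.val).2 (by simpa using h')
    simp only [Finset.coe_filter, Finset.mem_product, Finset.mem_range, Set.mem_ofPred_eq]
    exact ⟨⟨ZMod.val_lt x, ZMod.val_lt y⟩, h2⟩
  · rintro ⟨x, y⟩ h
    simp only [Finset.coe_filter, Finset.mem_product, Finset.mem_range, Set.mem_ofPred_eq] at h
    have h2 := (key x y).1 h.2
    simpa using h2
  · rintro ⟨x, y⟩ _
    simp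
  · rintro ⟨x, y⟩ h
    simp only [Finset.coe_filter, Finset.mem_product, Finset.mem_range, Set.mem_ofPred_eq] at h
    simp [ZMod.val_natCast_of_lt h.1.1, ZMod.val_natCast_of_lt h.1.2]

theorem t_AV : Pool.Agent.U309.ZF.S_AV := by
  classical
  intro K _ _ a b v p hp hv
  have : Fact p.Prime := ⟨hp⟩
  have : NeZero p := ⟨hp.ne_zero⟩
  have hcard : Nat.card (𝓞 K ⧸ v.asIdeal) = p := by
    rw [← hv, Ideal.absNorm_apply, Submodule.cardQuot_apply]
  have : Finite (𝓞 K ⧸ v.asIdeal) := Nat.finite_of_card_ne_zero (by rw [hcard]; exact hp.ne_zero)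
  let : Fintype (𝓞 K ⧸ v.asIdeal) := Fintype.ofFinite _
  have hf : Fintype.card (𝓞 K ⧸ v.asIdeal) = p := by rw [← Nat.card_eq_fintype_card, hcard]
  let e : ZMod p ≃+* (𝓞 K ⧸ v.asIdeal) := ZMod.ringEquivOfPrime _ hp hf
  constructor
  · unfold Pool.Agent.U309.ZF.av Pool.Agent.U309.ZF.ap Pool.Agent.U309.ZF.q
    rw [hv, ← card_zmod a b p]
    have h : Nat.card {P : (𝓞 K ⧸ v.asIdeal) × (𝓞 K ⧸ v.asIdeal) //
        P.2 ^ 2 = P.1 ^ 3 + (a : 𝓞 K ⧸ v.asIdeal) * P.1 + (b : 𝓞 K ⧸ v.asIdeal)} =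
        Nat.card {P : ZMod p × ZMod p // P.2 ^ 2 = P.1 ^ 3 + (a : ZMod p) * P.1 + (b : ZMod p)} := by
      refine Nat.card_congr (Equiv.symm ((Equiv.prodCongr e.toEquiv e.toEquiv).subtypeEquiv ?_))
      rintro ⟨x, y⟩
      constructor
      · intro h
        have := congrArg e h
        simpa using this
      · intro h
        apply e.injective
        simpa using h
    rw [h]
    push_cast
    ring
  · intro hnd hmem
    apply hnd
    rw [← ZMod.intCast_zmod_eq_zero_iff_dvd _ p]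
    apply e.injective
    rw [map_zero, map_intCast]
    have h1 := Ideal.Quotient.eq_zero_iff_mem.2 hmem
    have h2 : ((2 * (4 * a ^ 3 + 27 * b ^ 2) : ℤ) : 𝓞 K ⧸ v.asIdeal) =
        Ideal.Quotient.mk v.asIdeal (2 * (4 * a ^ 3 + 27 * b ^ 2) : 𝓞 K) := by
      rw [← map_intCast (Ideal.Quotient.mk v.asIdeal)]
      push_cast
      rfl
    rw [h2, h1]

end Pool.Agent.U402.ZF.AV
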