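import Mathlib

/-!
# Positivity on the imaginary axis gives `L(f, 3/2) ≠ 0`

For a cusp form `f` of weight `2` with `f(iy)` of positive real part, `Λ(f, 3/2)` is a Mellin integral
with an integrand of positive real part.
-/

set_option autoImplicit false

open UpperHalfPlane MatrixGroups CongruenceSubgroup Filter Topology MeasureTheory Set

namespace Pool.Agent.U402.ZF

theorem lambda_pos {N : ℕ} [NeZero N] (f : CuspForm (Gamma0 N : Subgroup (GL (Fin 2) ℝ)) 2)
    (hf : ∀ τ : ℍ, (τ : ℂ).re = 0 → 0 < (f τ).re) :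
    0 < (ModularForm.Λ (k := 2) two_pos f (3 / 2)).re := by
  have hconv : MellinConvergent (fun t : ℝ => f (ofComplex (Complex.I * t))) (3 / 2 : ℂ) :=
    ((CuspForm.isStrongFEPair (k := 2) two_pos f).hasMellin (3 / 2)).1
  rw [CuspForm.Λ_eq_mellin (k := 2) two_pos f, mellin]
  have hre : (∫ t in Ioi (0 : ℝ), (t : ℂ) ^ ((3 / 2 : ℂ) - 1) • f (ofComplex (Complex.I * t))).re =
      ∫ t in Ioi (0 : ℝ), ((t : ℂ) ^ ((3 / 2 : ℂ) - 1) • f (ofComplex (Complex.I * t))).re :=
    (integral_re hconv).symm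
  rw [hre]
  have hpos : ∀ t ∈ Ioi (0 : ℝ),
      0 < ((t : ℂ) ^ ((3 / 2 : ℂ) - 1) • f (ofComplex (Complex.I * t))).re := by
    intro t ht
    have ht0 : (0 : ℝ) < t := ht
    have h1 : (t : ℂ) ^ ((3 / 2 : ℂ) - 1) = ((t ^ ((1 : ℝ) / 2) : ℝ) : ℂ) := by
      rw [Complex.ofReal_cpow ht0.le]
      congr 1
      push_cast
      norm_num
    rw [h1, smul_eq_mul, Complex.re_ofReal_mul]
    refine mul_pos (Real.rpow_pos_of_pos ht0 _) (hf _ ?_)
    have him : 0 < (Complex.I * (t : ℂ)).im := by simpa using ht0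
    rw [ofComplex_apply_of_im_pos him]
    simp
  rw [setIntegral_pos_iff_support_of_nonneg_ae]
  · have : (Function.support fun t : ℝ =>
        ((t : ℂ) ^ ((3 / 2 : ℂ) - 1) • f (ofComplex (Complex.I * t))).re) ∩ Ioi (0 : ℝ) =
        Ioi (0 : ℝ) := by
      ext t
      constructor
      · exact fun h => h.2
      · exact fun h => ⟨(hpos t h).ne', h⟩
    rw [this]
    simp
  · filter_upwards [ae_restrict_mem measurableSet_Ioi] with t ht
    exact (hpos t ht).le
  · exact hconv.re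

theorem cont_ne_zero {N : ℕ} [NeZero N] (f : CuspForm (Gamma0 N : Subgroup (GL (Fin 2) ℝ)) 2)
    (hf : ∀ τ : ℍ, (τ : ℂ).re = 0 → 0 < (f τ).re) (L : ℂ → ℂ) (hL : Differentiable ℂ L)
    (hs : ∀ s : ℂ, 3 / 2 < s.re →
      HasSum (fun n : ℕ => (qExpansion 1 f).coeff n * (n : ℂ) ^ (-s)) (L s)) : L (3 / 2) ≠ 0 := by
  have hw : ((Gamma0 N : Subgroup (GL (Fin 2) ℝ))).strictWidthInfty = 1 := by simp
  have key : ∀ s : ℂ, 2 < s.re → L s = ModularForm.L (k := 2) two_pos f s := by
    intro s h2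
    have h1 := CuspForm.hasSum_L (Γ := (Gamma0 N : Subgroup (GL (Fin 2) ℝ))) (k := 2) two_pos f
      (s := s) (by norm_num; exact h2)
    rw [hw] at h1
    have h3 := hs s (by linarith)
    have h4 : (fun n : ℕ => (qExpansion 1 f).coeff n * (n : ℂ) ^ (-s)) =
        fun n : ℕ => (qExpansion 1 f).coeff n / (n : ℂ) ^ s := by
      ext n
      rw [Complex.cpow_neg, div_eq_mul_inv]
    rw [h4] at h3
    have h5 := h3.unique h1
    simpa using h5
  have hL' : Differentiable ℂ (ModularForm.L (k := 2) two_pos f) := CuspForm.differentiable_L _ _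
  have heq : L = ModularForm.L (k := 2) two_pos f := by
    refine AnalyticOnNhd.eq_of_eventuallyEq (z₀ := 3)
      (fun z _ => hL.analyticAt z) (fun z _ => hL'.analyticAt z) ?_
    have : {s : ℂ | 2 < s.re} ∈ 𝓝 (3 : ℂ) :=
      (isOpen_lt continuous_const Complex.continuous_re).mem_nhds (by norm_num)
    filter_upwards [this] with s h
    exact key s h
  rw [heq, ModularForm.L]
  have h1 := lambda_pos f hf
  refine mul_ne_zero (fun h => ?_) (div_ne_zero two_ne_zero ?_)
  · rw [h] at h1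
    simp at h1
  · rw [Complex.Gammaℂ]
    refine mul_ne_zero (mul_ne_zero two_ne_zero ?_) (Complex.Gamma_ne_zero_of_re_pos (by norm_num))
    rw [Complex.cpow_def_of_ne_zero (by simp [Real.pi_ne_zero])]
    exact Complex.exp_ne_zero _

end Pool.Agent.U402.ZF
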