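import Pool.Agent.U309.ZF.Stm4
import Pool.Agent.U402.ZF.POSA

/-!
# Project ZF (helper309), package POS

`L(f, 3/2) ≠ 0` from the positivity of `f` on the imaginary axis.
-/

set_option autoImplicit false

namespace Pool.Agent.U402.ZF

theorem t_POS : Pool.Agent.U309.ZF.S_POS := by
  intro N _ f _ _ hf L hL
  exact cont_ne_zero f hf L hL.1 hL.2

end Pool.Agent.U402.ZF
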